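import Pool.Agent.Helper240.ZU.A1
import Pool.Agent.Helper240.ZU.A2
import Pool.Agent.TH928.GS.MV

set_option autoImplicit false

/-! The mean square of zeta on the critical line and to the right of it. -/

namespace Pool.Agent.Helper25.ZM

open Complex Filter Topology MeasureTheory Set

noncomputable section

lemma sq3 (a b c : ℂ) : ‖a + b - c‖ ^ 2 ≤ 3 * (‖a‖ ^ 2 + ‖b‖ ^ 2 + ‖c‖ ^ 2) := by
  have h1 : ‖a + b - c‖ ≤ ‖a‖ + ‖b‖ + ‖c‖ :=
    (norm_sub_le _ _).trans (add_le_add_left (norm_add_le _ _) _)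
  have h2 : ‖a + b - c‖ ^ 2 ≤ (‖a‖ + ‖b‖ + ‖c‖) ^ 2 := pow_le_pow_left₀ (norm_nonneg _) h1 2
  nlinarith [sq_nonneg (‖a‖ - ‖b‖), sq_nonneg (‖b‖ - ‖c‖), sq_nonneg (‖a‖ - ‖c‖)]

lemma harm_le (X : ℕ) : ∑ n ∈ Finset.Icc 1 X, (n : ℝ)⁻¹ ≤ 1 + Real.log X := by
  have h := harmonic_le_one_add_log X
  rw [harmonic_eq_sum_Icc] at h
  push_cast at h
  exact h

/-- the remainder integral -/
def JJ (L : ℕ) (x v : ℝ) : ℂ :=
  ∫ u in Ioi (L : ℝ), ((Int.fract u : ℝ) : ℂ) * (u : ℂ) ^ (-((x : ℂ) + v * I) - 1)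

/-- the Dirichlet polynomial -/
def DD (L : ℕ) (x v : ℝ) : ℂ := ∑ n ∈ Finset.Icc 1 L, ((n : ℝ) ^ (-x) : ℝ) * (n : ℂ) ^ (-(I * v))

lemma DD_cont (L : ℕ) (x : ℝ) : Continuous fun v : ℝ => DD L x v := by
  unfold DD
  refine continuous_finsetSum _ fun n hn => continuous_const.mul ?_
  have hn0 : (n : ℂ) ≠ 0 := by
    have := (Finset.mem_Icc.1 hn).1
    exact_mod_cast (by omega : n ≠ 0)
  exact Continuous.const_cpow (by fun_prop) (Or.inl hn0)

lemma DN_eq (L : ℕ) (x v : ℝ) : ZU.DN L ((x : ℂ) + v * I) = DD L x v := by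
  unfold ZU.DN DD
  refine Finset.sum_congr rfl fun n hn => ?_
  have hn1 := (Finset.mem_Icc.1 hn).1
  have hn0 : (n : ℂ) ≠ 0 := by exact_mod_cast (by omega : n ≠ 0)
  have hnr : (0 : ℝ) ≤ n := Nat.cast_nonneg n
  rw [Complex.ofReal_cpow hnr, Complex.ofReal_natCast, Complex.ofReal_neg, ← Complex.cpow_add _ _ hn0]
  congr 1
  ring

lemma pt {x v T : ℝ} {L : ℕ} (hx1 : 1 / 2 ≤ x) (hx2 : x ≤ 2) (hv : 1 ≤ v) (hvT : v ≤ T)
    (hL1 : T ≤ L) (hL2 : (L : ℝ) ≤ 2 * T) :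
    ‖riemannZeta (x + I * v)‖ ^ 2 ≤ 3 * ‖DD L x v‖ ^ 2 + 6 * T * (v ^ 2)⁻¹ +
      15 * Real.exp 1 * T ^ 2 * (Real.exp (-(v / T) ^ 2) * ‖JJ L x v‖ ^ 2) := by
  have hT : 1 ≤ T := hv.trans hvT
  have hT0 : 0 < T := by linarith
  have hL0 : (1 : ℝ) ≤ L := hT.trans hL1
  have hLn : 1 ≤ L := by exact_mod_cast hL0
  have hs : ((x : ℂ) + I * v) = (x : ℂ) + v * I := by ring
  rw [hs]
  set s : ℂ := (x : ℂ) + v * I with hsd
  have hre : s.re = x := by simp [hsd]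
  have him : s.im = v := by simp [hsd]
  have hs1 : s ≠ 1 := by
    intro h
    have := congrArg Complex.im h
    rw [him, Complex.one_im] at this
    linarith
  have hform := ZU.J_a1.zeta_formula L hLn s (by rw [hre]; linarith) hs1
  rw [DN_eq] at hform
  have hJ : (∫ u in Ioi (L : ℝ), ((Int.fract u : ℝ) : ℂ) * (u : ℂ) ^ (-s - 1)) = JJ L x v := rfl
  rw [hJ] at hform
  rw [hform]
  refine (sq3 _ _ _).trans ?_
  have hns : ‖s‖ ^ 2 = x ^ 2 + v ^ 2 := by
    rw [← Complex.normSq_eq_norm_sq, Complex.normSq_apply, hre, him]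
    ring
  have hns1 : ‖s - 1‖ ^ 2 = (x - 1) ^ 2 + v ^ 2 := by
    rw [← Complex.normSq_eq_norm_sq, Complex.normSq_apply]
    simp [hre, him]
    ring
  have h1 : ‖(L : ℂ) ^ (1 - s) / (s - 1)‖ ^ 2 ≤ 2 * T * (v ^ 2)⁻¹ := by
    rw [norm_div, div_pow, Complex.norm_natCast_cpow_of_pos (by omega), hns1, div_eq_mul_inv]
    have h7 : (1 - s).re = 1 - x := by simp [hre]
    rw [h7]
    have h8 : ((L : ℝ) ^ (1 - x)) ^ 2 ≤ 2 * T := by
      rw [← Real.rpow_natCast, ← Real.rpow_mul (by linarith)]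
      refine le_trans ?_ hL2
      conv_rhs => rw [← Real.rpow_one (L : ℝ)]
      refine Real.rpow_le_rpow_of_exponent_le hL0 ?_
      push_cast
      linarith
    have h9 : ((x - 1) ^ 2 + v ^ 2)⁻¹ ≤ (v ^ 2)⁻¹ := by
      have : 0 < v ^ 2 := by positivity
      exact inv_anti₀ this (by nlinarith [sq_nonneg (x - 1)])
    exact mul_le_mul h8 h9 (by positivity) (by positivity)
  have h2 : ‖s * JJ L x v‖ ^ 2 ≤
      5 * Real.exp 1 * T ^ 2 * (Real.exp (-(v / T) ^ 2) * ‖JJ L x v‖ ^ 2) := by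
    rw [norm_mul, mul_pow, hns]
    have h3 : x ^ 2 + v ^ 2 ≤ 5 * T ^ 2 := by nlinarith
    have h4 : 1 ≤ Real.exp 1 * Real.exp (-(v / T) ^ 2) := by
      rw [← Real.exp_add]
      apply Real.one_le_exp
      have h5 : v / T ≤ 1 := by rw [div_le_one hT0]; exact hvT
      have h6 : 0 ≤ v / T := by positivity
      nlinarith
    have h5 : 0 ≤ ‖JJ L x v‖ ^ 2 := by positivity
    calc (x ^ 2 + v ^ 2) * ‖JJ L x v‖ ^ 2 ≤ 5 * T ^ 2 * ‖JJ L x v‖ ^ 2 := by gcongr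
      _ = 5 * T ^ 2 * ‖JJ L x v‖ ^ 2 * 1 := by ring
      _ ≤ 5 * T ^ 2 * ‖JJ L x v‖ ^ 2 * (Real.exp 1 * Real.exp (-(v / T) ^ 2)) := by gcongr
      _ = _ := by ring
  nlinarith [h1, h2]

/-- mean square of zeta on the lines `1/2 ≤ Re s ≤ 2` -/
theorem zms : ∃ C : ℝ, 0 < C ∧ ∀ x T : ℝ, 1 / 2 ≤ x → x ≤ 2 → 1 ≤ T →
    ∫ v in (1 : ℝ)..T, ‖riemannZeta (x + I * v)‖ ^ 2 ≤ C * T * (1 + Real.log T) := by
  obtain ⟨C, hC, hMV⟩ := Pool.Agent.TH928.GS.t_MV
  refine ⟨24 * C + 6 + 30 * Real.exp 1 * Real.pi, by positivity, fun x T hx1 hx2 hT => ?_⟩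
  have hT0 : 0 < T := by linarith
  have hlT := Real.log_nonneg hT
  set L : ℕ := ⌈T⌉₊ with hL
  have hL1 : T ≤ L := Nat.le_ceil T
  have hL2 : (L : ℝ) ≤ 2 * T := by
    have := (Nat.ceil_lt_add_one hT0.le).le
    linarith
  have hL0 : (1 : ℝ) ≤ L := hT.trans hL1
  have hLn : 1 ≤ L := by exact_mod_cast hL0
  obtain ⟨jint, jle⟩ := ZU.J_a2.planch x (by linarith) L hLn T hT0
  have hDc : Continuous fun v : ℝ => ‖DD L x v‖ ^ 2 := (DD_cont L x).norm.pow 2
  have hzc : ContinuousOn (fun v : ℝ => ‖riemannZeta (x + I * v)‖ ^ 2) (Icc 1 T) := by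
    intro v hv
    have h1 : ((x : ℂ) + I * v) ≠ 1 := by
      intro h
      have := congrArg Complex.im h
      simp at this
      linarith [hv.1]
    have h2 : ContinuousAt (fun v : ℝ => riemannZeta ((x : ℂ) + I * v)) v :=
      ContinuousAt.comp (f := fun v : ℝ => (x : ℂ) + I * v) (g := riemannZeta)
        (differentiableAt_riemannZeta h1).continuousAt (by fun_prop)
    exact (h2.norm.pow 2).continuousWithinAt
  have hvc : ContinuousOn (fun v : ℝ => 6 * T * (v ^ 2)⁻¹) (Icc 1 T) := by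
    refine continuousOn_const.mul (ContinuousOn.inv₀ (by fun_prop) fun v hv => ?_)
    have := hv.1
    positivity
  have i1 : IntervalIntegrable (fun v : ℝ => 3 * ‖DD L x v‖ ^ 2) volume 1 T :=
    (hDc.const_mul 3 |>.intervalIntegrable _ _)
  have i2 : IntervalIntegrable (fun v : ℝ => 6 * T * (v ^ 2)⁻¹) volume 1 T := by
    apply ContinuousOn.intervalIntegrable
    rwa [uIcc_of_le hT]
  have i3 : IntervalIntegrable (fun v : ℝ => 15 * Real.exp 1 * T ^ 2 *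
      (Real.exp (-(v / T) ^ 2) * ‖JJ L x v‖ ^ 2)) volume 1 T :=
    (jint.intervalIntegrable).const_mul _
  have i0 : IntervalIntegrable (fun v : ℝ => ‖riemannZeta (x + I * v)‖ ^ 2) volume 1 T := by
    apply ContinuousOn.intervalIntegrable
    rwa [uIcc_of_le hT]
  have step : ∫ v in (1 : ℝ)..T, ‖riemannZeta (x + I * v)‖ ^ 2 ≤
      ∫ v in (1 : ℝ)..T, (3 * ‖DD L x v‖ ^ 2 + 6 * T * (v ^ 2)⁻¹ + 15 * Real.exp 1 * T ^ 2 *
      (Real.exp (-(v / T) ^ 2) * ‖JJ L x v‖ ^ 2)) := by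
    refine intervalIntegral.integral_mono_on hT i0 ((i1.add i2).add i3) fun v hv => ?_
    exact pt hx1 hx2 hv.1 hv.2 hL1 hL2
  refine step.trans ?_
  rw [intervalIntegral.integral_add (i1.add i2) i3, intervalIntegral.integral_add i1 i2,
    intervalIntegral.integral_const_mul, intervalIntegral.integral_const_mul,
    intervalIntegral.integral_const_mul]
  -- the polynomial
  have a1 : ∫ v in (1 : ℝ)..T, ‖DD L x v‖ ^ 2 ≤ C * (4 * T * (2 * (1 + Real.log T))) := by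
    have h1 : ∫ v in (1 : ℝ)..T, ‖DD L x v‖ ^ 2 ≤ ∫ v in (0 : ℝ)..(2 * (2 * T)), ‖DD L x v‖ ^ 2 := by
      refine intervalIntegral.integral_mono_interval (by norm_num) hT (by linarith)
        (Eventually.of_forall fun v => by positivity) (hDc.intervalIntegrable _ _)
    refine h1.trans ((hMV (2 * T) L (fun n => ((n : ℝ) ^ (-x) : ℝ)) (by linarith) (by nlinarith)).trans ?_)
    refine mul_le_mul_of_nonneg_left ?_ hC.le
    calc ∑ n ∈ Finset.Icc 1 L, (2 * T + n) * ‖(((n : ℝ) ^ (-x) : ℝ) : ℂ)‖ ^ 2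
        ≤ ∑ n ∈ Finset.Icc 1 L, 4 * T * (n : ℝ)⁻¹ := by
          refine Finset.sum_le_sum fun n hn => ?_
          rw [Finset.mem_Icc] at hn
          have hn1 : (1 : ℝ) ≤ n := by exact_mod_cast hn.1
          have hn2 : (n : ℝ) ≤ L := by exact_mod_cast hn.2
          have h3 : ‖(((n : ℝ) ^ (-x) : ℝ) : ℂ)‖ ^ 2 ≤ (n : ℝ)⁻¹ := by
            rw [Complex.norm_real, Real.norm_of_nonneg (by positivity), ← Real.rpow_natCast,
              ← Real.rpow_mul (by linarith), ← Real.rpow_neg_one]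
            refine Real.rpow_le_rpow_of_exponent_le hn1 ?_
            push_cast
            linarith
          have h4 : 2 * T + (n : ℝ) ≤ 4 * T := by linarith
          exact mul_le_mul h4 h3 (by positivity) (by positivity)
      _ = 4 * T * ∑ n ∈ Finset.Icc 1 L, (n : ℝ)⁻¹ := by rw [Finset.mul_sum]
      _ ≤ 4 * T * (1 + Real.log L) := by
          have := harm_le L
          gcongr
      _ ≤ 4 * T * (2 * (1 + Real.log T)) := by
          have h5 : Real.log L ≤ Real.log 2 + Real.log T := by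
            rw [← Real.log_mul (by norm_num) hT0.ne']
            exact Real.log_le_log (by linarith) hL2
          have h6 : Real.log 2 < 1 := by linarith [Real.log_two_lt_d9]
          gcongr
          linarith
  -- the middle term
  have a2 : ∫ v in (1 : ℝ)..T, (v ^ 2)⁻¹ ≤ 1 := by
    have h1 : ∫ v in (1 : ℝ)..T, (v ^ 2)⁻¹ = -T⁻¹ - -(1 : ℝ)⁻¹ := by
      refine intervalIntegral.integral_eq_sub_of_hasDerivAt (f := fun v : ℝ => -v⁻¹) (fun v hv => ?_) ?_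
      · rw [uIcc_of_le hT] at hv
        have hv0 : v ≠ 0 := by linarith [hv.1]
        have h2 : HasDerivAt (fun v : ℝ => -v⁻¹) (-(-(v ^ 2)⁻¹)) v := (hasDerivAt_inv hv0).neg
        rwa [neg_neg] at h2
      · apply ContinuousOn.intervalIntegrable
        rw [uIcc_of_le hT]
        refine ContinuousOn.inv₀ (by fun_prop) fun v hv => ?_
        have := hv.1
        positivity
    rw [h1]
    have : 0 < T⁻¹ := by positivity
    norm_num
    linarith
  -- the remainder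
  have a3 : ∫ v in (1 : ℝ)..T, Real.exp (-(v / T) ^ 2) * ‖JJ L x v‖ ^ 2 ≤ 2 * Real.pi * T⁻¹ := by
    have h1 : ∫ v in (1 : ℝ)..T, Real.exp (-(v / T) ^ 2) * ‖JJ L x v‖ ^ 2 ≤
        ∫ v : ℝ, Real.exp (-(v / T) ^ 2) * ‖JJ L x v‖ ^ 2 := by
      rw [intervalIntegral.integral_of_le hT]
      exact setIntegral_le_integral jint (Eventually.of_forall fun v => by positivity)
    refine h1.trans (jle.trans ?_)
    have h2 : (L : ℝ) ^ (-(2 * x)) / (2 * x) ≤ T⁻¹ := by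
      have h3 : (L : ℝ) ^ (-(2 * x)) ≤ T⁻¹ := by
        calc (L : ℝ) ^ (-(2 * x)) ≤ (L : ℝ) ^ (-1 : ℝ) :=
              Real.rpow_le_rpow_of_exponent_le hL0 (by linarith)
          _ = (L : ℝ)⁻¹ := Real.rpow_neg_one _
          _ ≤ T⁻¹ := inv_anti₀ hT0 hL1
      refine (div_le_self (by positivity) (by linarith)).trans h3
    gcongr
  have e1 : 15 * Real.exp 1 * T ^ 2 * (2 * Real.pi * T⁻¹) = 30 * Real.exp 1 * Real.pi * T := by
    field_simp
    ring
  have b3 := mul_le_mul_of_nonneg_left a3 (by positivity : (0 : ℝ) ≤ 15 * Real.exp 1 * T ^ 2)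
  rw [e1] at b3
  have b2 := mul_le_mul_of_nonneg_left a2 (by positivity : (0 : ℝ) ≤ 6 * T)
  have hE : 0 ≤ 30 * Real.exp 1 * Real.pi * T * Real.log T := by positivity
  nlinarith [mul_nonneg hT0.le hlT]

end

end Pool.Agent.Helper25.ZM
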