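import Pool.Agent.Helper25.ZM.GSAll
import Pool.Agent.TH612.GS.GF3
import Pool.Agent.TH612.GS.GF4
import Pool.Agent.TH263.GF.A2
import Pool.Agent.TH321.GF.AQ
import Pool.Agent.TH236.GF.OQ
import Pool.Agent.TH740.GF.VQ
import Pool.Agent.TH406.GF.REPA
import Pool.Agent.TH738.GF.TMV
import Pool.Agent.TH751.GF.MVB
import Pool.Agent.TH576.GF.TL
import Pool.Agent.TH778.GF.ST
import Pool.Agent.TH445.GF.DS
import Pool.Agent.TH914.GF.TW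
import Pool.Agent.TH479.GF.HD
import Pool.Agent.TH637.GF.NA
import Pool.Agent.TH740.GF.GL3
import Pool.Agent.TH113.GF.A5
import Pool.Agent.TH928.GF.ZN
import Pool.Agent.TH521.GF.SW3
import Pool.Agent.TH440.GF.ZA

set_option autoImplicit false

/-! Project GF: all pieces. -/

namespace Pool.Agent.Helper25.ZM

open Pool.Agent.TH612.GS

theorem fOQ : S_OQ := Pool.Agent.TH236.GF.t_OQ Pool.Agent.TH321.GF.t_AQ
theorem fVQ : S_VQ := Pool.Agent.TH740.GF.t_VQ sMV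
theorem fTMV : S_TMV := Pool.Agent.TH738.GF.t_TMV sMV
theorem fTL : S_TL := Pool.Agent.TH576.GF.t_TL Pool.Agent.TH263.GF.t_A2 Pool.Agent.TH751.GF.t_MVB
theorem fTW : S_TW := Pool.Agent.TH914.GF.t_TW Pool.Agent.TH778.GF.t_ST Pool.Agent.TH445.GF.t_DS
theorem fA5 : S_A5 := Pool.Agent.TH113.GF.t_A5 Pool.Agent.TH757.GS.t_CONT (Pool.Agent.TH740.GF.t_GL3 sMV)
theorem fZN : S_ZN := Pool.Agent.TH928.GF.t_ZN sONE
theorem fSW3 : S_SW3 := Pool.Agent.TH521.GF.t_SW3 Pool.Agent.TH406.GS.t_CHI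
theorem fZA : S_ZA := Pool.Agent.TH440.GF.t_ZA sONE
theorem fW : S_W := t_W Pool.Agent.TH406.GF.t_REPA fOQ sm_gs fVQ Pool.Agent.TH263.GF.t_A2 fTMV fTL fTW
  Pool.Agent.TH479.GF.t_HD

/-- the theorem of project GF with all the swap terms -/
theorem gf_main (k : ℕ) (hk : k ≤ 4) : ∃ δ : ℝ, 0 < δ ∧ ∀ α : Fin k → ℝ, Function.Injective α →
    ∃ T₀ : ℝ, ∀ T : ℝ, T₀ ≤ T → ∀ S : ℝ, 0 ≤ S → S ≤ T →
    mP (Fin k) T (BadA α T S (T ^ (1 - δ))) ≤ ENNReal.ofReal (T ^ (k - δ : ℝ)) :=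
  mainA fW fA5 fZN fSW3 fZA Pool.Agent.TH637.GF.t_NA t_INV k hk

/-- the theorem of project GF with the diagonal term -/
theorem gf_mainD (k : ℕ) (hk : k ≤ 4) : ∃ δ : ℝ, 0 < δ ∧ ∀ α : Fin k → ℝ,
    ∃ T₀ : ℝ, ∀ T : ℝ, T₀ ≤ T → ∀ S : ℝ, 0 ≤ S → S ≤ T →
    mP (Fin k) T (BadD α T S (T ^ (1 - δ))) ≤ ENNReal.ofReal (T ^ (k - δ : ℝ)) :=
  mainD fW fA5 fZN Pool.Agent.TH637.GF.t_NA k hk

end Pool.Agent.Helper25.ZM
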