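import Pool.Agent.Helper25.ZM.SM
import Pool.Agent.TH928.GS.MV
import Pool.Agent.TH503.GS.MVD
import Pool.Agent.TH264.GS.AP
import Pool.Agent.TH889.GS.OP
import Pool.Agent.TH521.GS.Rep
import Pool.Agent.TH509.GS.DIAG
import Pool.Agent.TH448.GS.FL2
import Pool.Agent.TH367.GS.SS
import Pool.Agent.TH757.GS.CONT
import Pool.Agent.TH753.GS.GL2
import Pool.Agent.TH811.GS.One
import Pool.Agent.TH228.GS.ZM
import Pool.Agent.TH406.GS.CHI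
import Pool.Agent.TH805.GS.SW
import Pool.Agent.TH612.GS.Inv
import Pool.Agent.TH767.GS.NS
import Pool.Agent.TH347.GS.A4
import Pool.Agent.TH612.GS.Z
import Pool.Agent.TH612.GS.Asm6

set_option autoImplicit false

/-! Project GS: all pieces. -/

namespace Pool.Agent.Helper25.ZM

open Pool.Agent.TH612.GS

theorem sMV : S_MV := Pool.Agent.TH928.GS.t_MV
theorem sSP : S_SP := Pool.Agent.TH503.GS.t_SP sMV
theorem sOP : S_OP := Pool.Agent.TH889.GS.t_OP sMV (Pool.Agent.TH503.GS.t_MVD sMV) Pool.Agent.TH264.GS.t_AP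
theorem sFL2 : S_FL2 := Pool.Agent.TH448.GS.t_FL2
theorem sONE : S_ONE := Pool.Agent.TH811.GS.t_ONE sMV
theorem sA4 : S_A4 := Pool.Agent.TH347.GS.t_A4 Pool.Agent.TH757.GS.t_CONT (Pool.Agent.TH753.GS.t_GL2 sFL2)
theorem sZM : S_ZM := Pool.Agent.TH228.GS.t_ZM sONE
theorem sSW : S_SW := Pool.Agent.TH805.GS.t_SW Pool.Agent.TH406.GS.t_CHI
theorem sZ1 : S_Z1 := t_Z1 Pool.Agent.TH521.GS.t_REP sOP sm_gs sSP
theorem sZ2 : S_Z2 := t_Z2 Pool.Agent.TH521.GS.t_REP2 sm_gs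

/-- the theorem of project GS -/
theorem gs_main (k : ℕ) : ∃ δ : ℝ, 0 < δ ∧ ∃ T₀ : ℝ, ∀ T : ℝ, T₀ ≤ T →
    mP (Fin k ⊕ Fin k) T (Bad k T (T ^ (1 - δ))) ≤ ENNReal.ofReal (T ^ (2 * k - δ : ℝ)) :=
  main sZ1 sZ2 (Pool.Agent.TH367.GS.t_SS sFL2) sA4 sZM sSW sONE Pool.Agent.TH767.GS.t_NS
    Pool.Agent.TH509.GS.t_DIAG t_INV k

end Pool.Agent.Helper25.ZM
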