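import Pool.Agent.Helper25.ZM.Defs
import Pool.Agent.Helper25.ZM.GSAll
import Pool.Agent.Helper25.ZM.GFAll

set_option autoImplicit false

/-! The definitions of `Defs` and the ones of the projects. -/

namespace Pool.Agent.Helper25.ZM.Rec

open Complex MeasureTheory Set
open Pool.Agent.TH612.GS (mP)

lemma zetaAB_eq {k : ℕ} (a b : Fin k → ℝ) :
    zetaAB a b = Pool.Agent.TH612.CF.zab (fun j => (a j : ℂ)) (fun j => (b j : ℂ)) := rfl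

lemma Z_eq {k : ℕ} (γ : Fin k ⊕ Fin k → ℝ) (t : ℝ) : Z γ t = Pool.Agent.TH612.CF.Zg γ t := rfl

lemma G_eq {k : ℕ} (t : ℝ) (γ : Fin k ⊕ Fin k → ℝ) (π : Equiv.Perm (Fin k ⊕ Fin k)) :
    G t γ π = Pool.Agent.TH612.CF.GG t (fun i => (γ i : ℂ)) π := rfl

lemma Q_eq {k : ℕ} (t : ℝ) (γ : Fin k ⊕ Fin k → ℝ) :
    Q t γ = ((Nat.factorial k : ℂ) ^ 2)⁻¹ * Pool.Agent.TH612.CF.Qs t (fun i => (γ i : ℂ)) := rfl

lemma DD_eq {k : ℕ} (S : ℝ) (γ : Fin k ⊕ Fin k → ℝ) :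
    Pool.Agent.TH612.GS.DD S γ = ∫ t in (0 : ℝ)..S, (Z γ t - Q t γ) := rfl

lemma mP_eq {ι : Type} [Fintype ι] (T : ℝ) :
    mP ι T = (volume : Measure (ι → ℝ)).restrict (univ.pi fun _ => Icc 0 T) := by
  unfold Pool.Agent.TH612.GS.mP
  rw [volume_pi, Measure.restrict_pi_pi]

lemma mP_apply {ι : Type} [Fintype ι] (T : ℝ) {A : Set (ι → ℝ)} (hA : A ⊆ {x | ∀ i, 0 ≤ x i ∧ x i ≤ T}) :
    mP ι T A = volume A := by
  rw [mP_eq, Measure.restrict_apply' (MeasurableSet.univ_pi fun _ => measurableSet_Icc)]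
  congr 1
  refine inter_eq_left.2 fun x hx i _ => ?_
  exact hA hx i

end Pool.Agent.Helper25.ZM.Rec
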