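import Mathlib

set_option autoImplicit false

/-! Shifted moments of the Riemann zeta function: the product `Z`, the arithmetic series at `1/2` and the recipe `Q`.
A shift vector `γ = (α, β)` is a function on `Fin k ⊕ Fin k`; `α_j = γ (inl j)`, `β_j = γ (inr j)`. -/

namespace Pool.Agent.Helper25.ZM.Rec

open Complex

noncomputable section

/-- `τ_l(n) = ∑_{d_1 ⋯ d_k = n} ∏_j d_j ^ l_j` -/
def tau {k : ℕ} (l : Fin k → ℂ) (n : ℕ) : ℂ := ∑ d ∈ Nat.finMulAntidiag k n, ∏ j, (d j : ℂ) ^ (l j)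

/-- the factor at the prime `p` of `F(1/2; a, b)`:
`∏_{j,l} (1 - p^(-(1 + i a_j - i b_l))) * ∑_{m ≥ 0} τ_{ib}(p^m) τ_{-ia}(p^m) p^(-m)` -/
def loc {k : ℕ} (a b : Fin k → ℂ) (p : ℕ) : ℂ :=
  (∏ j, ∏ l, (1 - (p : ℂ) ^ (-(1 + I * a j - I * b l)))) *
    ∑' m : ℕ, tau (fun j => I * b j) (p ^ m) * tau (fun j => -(I * a j)) (p ^ m) * ((p : ℂ) ^ m)⁻¹

/-- the Euler product `F(1/2; a, b)` -/
def F {k : ℕ} (a b : Fin k → ℂ) : ℂ := ∏' p : Nat.Primes, loc a b p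

/-- `ζ_{(a,b)}(1/2) = F(1/2; a, b) ∏_{j,l} ζ(1 + i a_j - i b_l)` -/
def zetaAB {k : ℕ} (a b : Fin k → ℝ) : ℂ :=
  F (fun j => (a j : ℂ)) (fun j => (b j : ℂ)) * ∏ j, ∏ l, riemannZeta (1 + I * a j - I * b l)

/-- the factor of the functional equation `ζ(s) = χ(s) ζ(1 - s)` -/
def chi (s : ℂ) : ℂ := (Real.pi : ℂ) ^ (s - 1 / 2) * Gamma ((1 - s) / 2) / Gamma (s / 2)

/-- `G_γ(π)`: the first block of `π(γ)` is `γ (π (inl j))`, the second one is `γ (π (inr j))` -/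
def G {k : ℕ} (t : ℝ) (γ : Fin k ⊕ Fin k → ℝ) (π : Equiv.Perm (Fin k ⊕ Fin k)) : ℂ :=
  (∏ j : Fin k, if (π (Sum.inl j)).isRight then chi (1 / 2 - I * t - I * γ (π (Sum.inl j))) else 1) *
    ∏ j : Fin k, if (π (Sum.inr j)).isLeft then chi (1 / 2 + I * t + I * γ (π (Sum.inr j))) else 1

/-- `Q_k(t; α, β) = (k!)^(-2) ∑_{π ∈ S_{2k}} G_γ(π) ζ_{π(γ)}(1/2)`; the terms depend only on the class of `π` modulo
`S_k × S_k`, and each class has `(k!)^2` elements -/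
def Q {k : ℕ} (t : ℝ) (γ : Fin k ⊕ Fin k → ℝ) : ℂ :=
  ((Nat.factorial k : ℂ) ^ 2)⁻¹ * ∑ π : Equiv.Perm (Fin k ⊕ Fin k),
    G t γ π * zetaAB (fun j => γ (π (Sum.inl j))) (fun j => γ (π (Sum.inr j)))

/-- `Z_{α,β}(t) = ∏_j ζ(1/2 + i(t + α_j)) ζ(1/2 - i(t + β_j))` -/
def Z {k : ℕ} (γ : Fin k ⊕ Fin k → ℝ) (t : ℝ) : ℂ :=
  ∏ j : Fin k, riemannZeta (1 / 2 + I * (t + γ (Sum.inl j))) * riemannZeta (1 / 2 - I * (t + γ (Sum.inr j)))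

end

end Pool.Agent.Helper25.ZM.Rec
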