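import Pool.Agent.N879.PZ.Sml
import Pool.Agent.N879.PZ.Ctg
import Pool.Agent.N879.PZ.Asm1

set_option autoImplicit false

/-! Project PZ: the missing piece LED, the lower order terms of the model. -/

namespace Pool.Agent.Helper25.ZM

open Complex Filter Topology MeasureTheory Set
open Pool.Agent.Y969.GP (ff mB)
open Pool.Agent.Y969.SM (mB_int)
open Pool.Agent.N879.PZ

/-- telescoping -/
theorem tele : ∀ {n : ℕ} (F G : Fin n → ℂ), ∏ j, F j - ∏ j, G j =
    ∑ i, ∏ j, (if j < i then G j else if j = i then F j - G j else F j)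
  | 0, F, G => by simp
  | n + 1, F, G => by
    have h0 : ∏ j : Fin (n + 1), (if j < 0 then G j else if j = 0 then F j - G j else F j) =
        (F 0 - G 0) * ∏ j : Fin n, F j.succ := by
      rw [Fin.prod_univ_succ]
      simp [Fin.succ_ne_zero]
    have h1 : ∀ i : Fin n, ∏ j : Fin (n + 1), (if j < i.succ then G j else if j = i.succ then F j - G j else F j) =
        G 0 * ∏ j : Fin n, (if j < i then G j.succ else if j = i then F j.succ - G j.succ else F j.succ) := by
      intro i
      rw [Fin.prod_univ_succ]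
      simp only [Fin.succ_pos, if_true, Fin.succ_lt_succ_iff, Fin.succ_inj]
    rw [Fin.sum_univ_succ, h0]
    simp only [h1]
    rw [← Finset.mul_sum, ← tele (fun j => F j.succ) (fun j => G j.succ), Fin.prod_univ_succ,
      Fin.prod_univ_succ (f := G)]
    ring

/-- LED -/
theorem t_LED (hSM : Pool.Agent.Y969.GP.S_SM) (hFUB : S_FUB) (hWIN : S_WIN) : S_LED := by
  obtain ⟨C1, hC1, hSM⟩ := hSM
  obtain ⟨C2, hC2, hWIN⟩ := hWIN
  intro n
  refine ⟨(n + 1) * C1 * √C2 ^ n, by positivity, ?_⟩
  intro T U a N hP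
  have hWN := hWIN T U a N hP
  obtain ⟨hT, hU, hUT, ha, haT, hN1, hNT, -⟩ := hP
  have ha1 := Smlaux.one_le_a hT ha
  have hL := Smlaux.log_one hT
  have hU0 : 0 < U := by linarith
  have hT0 : 0 < T := by linarith
  set L := Real.log T with hLdef
  have hNL0 : 0 ≤ Real.log N := Real.log_natCast_nonneg N
  set M : ℝ := 1 + Real.log N with hM
  have hM1 : 1 ≤ M := by linarith
  set R : ℝ := 1 + Real.log (T / a) with hR
  have hR1 : 1 ≤ R := by
    have : 0 ≤ Real.log (T / a) := Real.log_nonneg (by rw [le_div_iff₀ (by linarith)]; linarith)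
    linarith
  -- the factors
  set f : ℝ → ℂ := DN N with hf
  set g : ℝ → ℂ := fun u => (L : ℂ) * P1 N u with hg
  have hfc : Continuous f := DN_cont N
  have hgc : Continuous g := continuous_const.mul (P1_cont N)
  set w : Fin n → Fin n → ℝ → ℂ := fun i j u => if j < i then g u else if j = i then f u - g u else f u with hw
  have hwc : ∀ i j, Continuous (w i j) := by
    intro i j
    simp only [hw]
    by_cases h1 : j < i
    · simp only [h1, if_true]; exact hgc
    · by_cases h2 : j = i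
      · subst h2
        simp only [lt_irrefl, if_false, if_true]; exact hfc.sub hgc
      · simp only [h1, h2, if_false]; exact hfc
  -- windows
  have w1 : ∀ t ∈ Icc a T, ∫ c in (0:ℝ)..U, ‖g (t + c)‖ ≤ U * (√C2 * M ^ 2 * L) := by
    intro t ht
    refine Smlaux.cs_int hU0.le (f := fun c => ‖g (t + c)‖) (hgc.comp (by fun_prop)).norm (by positivity) ?_
    have e1 : ∀ c : ℝ, ‖g (t + c)‖ ^ 2 = L ^ 2 * ‖P1 N (t + c)‖ ^ 2 := by
      intro c
      simp only [hg, norm_mul, Complex.norm_real, mul_pow, Real.norm_eq_abs, sq_abs]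
    simp only [e1]
    rw [intervalIntegral.integral_const_mul]
    have h1 := (hWN t ht.1 ht.2).1
    have h3 : M ^ 2 ≤ M ^ 4 := pow_le_pow_right₀ hM1 (by norm_num)
    have h4 := Real.sq_sqrt hC2.le
    calc L ^ 2 * ∫ c in (0:ℝ)..U, ‖P1 N (t + c)‖ ^ 2 ≤ L ^ 2 * (C2 * U * M ^ 2) := by gcongr
      _ ≤ L ^ 2 * (C2 * U * M ^ 4) := by gcongr
      _ = U * ((√C2) ^ 2 * M ^ 4 * L ^ 2) := by rw [h4]; ring
      _ = U * (√C2 * M ^ 2 * L) ^ 2 := by ring
  have w2 : ∀ t ∈ Icc a T, ∫ c in (0:ℝ)..U, ‖f (t + c)‖ ≤ U * (√C2 * M ^ 2 * L) := by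
    intro t ht
    refine Smlaux.cs_int hU0.le (f := fun c => ‖f (t + c)‖) (hfc.comp (by fun_prop)).norm (by positivity) ?_
    have h1 := (hWN t ht.1 ht.2).2.1
    have h4 := Real.sq_sqrt hC2.le
    calc ∫ c in (0:ℝ)..U, ‖f (t + c)‖ ^ 2 ≤ C2 * U * M ^ 4 * L ^ 2 := h1
      _ = U * ((√C2) ^ 2 * M ^ 4 * L ^ 2) := by rw [h4]; ring
      _ = U * (√C2 * M ^ 2 * L) ^ 2 := by ring
  have w3 : ∀ t ∈ Icc a T, ∫ c in (0:ℝ)..U, ‖f (t + c) - g (t + c)‖ ≤ U * (√C2 * M ^ 2 * R) := by
    intro t ht
    refine Smlaux.cs_int hU0.le (f := fun c => ‖f (t + c) - g (t + c)‖)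
      ((hfc.comp (by fun_prop)).sub (hgc.comp (by fun_prop))).norm (by positivity) ?_
    have h1 := (hWN t ht.1 ht.2).2.2
    have h4 := Real.sq_sqrt hC2.le
    calc ∫ c in (0:ℝ)..U, ‖f (t + c) - g (t + c)‖ ^ 2 ≤ C2 * U * M ^ 4 * R ^ 2 := h1
      _ = U * ((√C2) ^ 2 * M ^ 4 * R ^ 2) := by rw [h4]; ring
      _ = U * (√C2 * M ^ 2 * R) ^ 2 := by ring
  set B : ℝ := U * (√C2 * M ^ 2) with hB
  have hB0 : 0 ≤ B := by positivity
  have w4 : ∀ i j, ∀ t ∈ Icc a T, ∫ c in (0:ℝ)..U, ‖w i j (t + c)‖ ≤ B * (if j = i then R else L) := by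
    intro i j t ht
    simp only [hw]
    by_cases h1 : j < i
    · have h2 : j ≠ i := h1.ne
      simp only [h1, h2, if_true, if_false]
      exact (w1 t ht).trans (le_of_eq (by rw [hB]; ring))
    · by_cases h2 : j = i
      · subst h2
        simp only [lt_irrefl, if_false, if_true]
        exact (w3 t ht).trans (le_of_eq (by rw [hB]; ring))
      · simp only [h1, h2, if_false]
        exact (w2 t ht).trans (le_of_eq (by rw [hB]; ring))
  -- the second moment
  have hff : ∫ t in Icc a T, ff t ≤ C1 * T * L := by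
    refine le_trans ?_ (hSM T (by linarith))
    rw [intervalIntegral.integral_of_le (by linarith), ← integral_Icc_eq_integral_Ioc]
    refine setIntegral_mono_set Pool.Agent.Y969.SM.ff_cont.integrableOn_Icc (Eventually.of_forall fun t => Smlaux.ff_nonneg t)
      (Eventually.of_forall fun t ht => ⟨by linarith [ht.1], by linarith [ht.2]⟩)
  -- one term
  have key : ∀ i : Fin n, ∫ c, ‖∫ t in Icc a T, (ff t : ℂ) * ∏ j, w i j (t + c j)‖ ∂(mB n 0 U) ≤
      C1 * T * L * (B ^ n * (R * L ^ (n - 1))) := by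
    intro i
    refine (hFUB n a T U (Icc a T) (fun t => (ff t : ℂ)) (w i) haT hU0 measurableSet_Icc (Subset.refl _)
      (Smlaux.ff_Wb a T) (hwc i)).trans ?_
    have e1 : ∏ j, (B * (if j = i then R else L)) = B ^ n * (R * L ^ (n - 1)) := by
      rw [Finset.prod_mul_distrib, Finset.prod_const, Finset.card_univ, Fintype.card_fin,
        ← Finset.mul_prod_erase Finset.univ _ (Finset.mem_univ i)]
      rw [if_pos rfl]
      congr 2
      rw [Finset.prod_congr rfl (g := fun _ => L) fun j hj => by rw [if_neg (Finset.ne_of_mem_erase hj)],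
        Finset.prod_const, Finset.card_erase_of_mem (Finset.mem_univ i), Finset.card_univ, Fintype.card_fin]
    have e2 : ∫ t in Icc a T, ‖(ff t : ℂ)‖ * ∏ j, ∫ c in (0:ℝ)..U, ‖w i j (t + c)‖ ≤
        ∫ t in Icc a T, ff t * (B ^ n * (R * L ^ (n - 1))) := by
      refine setIntegral_mono_on ?_ ?_ measurableSet_Icc fun t ht => ?_
      · refine Continuous.integrableOn_Icc (Continuous.mul ?_ ?_)
        · exact (Complex.continuous_ofReal.comp Pool.Agent.Y969.SM.ff_cont).norm
        · exact continuous_finsetProd _ fun j _ => Smlaux.wcont (hwc i j) U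
      · exact (Pool.Agent.Y969.SM.ff_cont.mul continuous_const).integrableOn_Icc
      · rw [Smlaux.nff]
        refine mul_le_mul_of_nonneg_left ?_ (Smlaux.ff_nonneg t)
        rw [← e1]
        refine Finset.prod_le_prod (fun j _ => ?_) fun j _ => w4 i j t ht
        exact intervalIntegral.integral_nonneg hU0.le fun c _ => norm_nonneg _
    refine e2.trans ?_
    rw [integral_mul_const]
    exact mul_le_mul_of_nonneg_right hff (by positivity)
  -- continuity
  have hcont : ∀ i : Fin n, Continuous fun c : Fin n → ℝ =>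
      ∫ t in Icc a T, (ff t : ℂ) * ∏ j, w i j (t + c j) := fun i =>
    t_CTG n a T (Icc a T) (fun t => (ff t : ℂ)) (w i) haT measurableSet_Icc (Subset.refl _) (Smlaux.ff_Wb a T) (hwc i)
  have hint : ∀ (c : Fin n → ℝ) (i : Fin n),
      IntegrableOn (fun t => (ff t : ℂ) * ∏ j, w i j (t + c j)) (Icc a T) := fun c i =>
    prod_int (Subset.refl _) (w i) (hwc i) c
  have hdec : ∀ c : Fin n → ℝ, ∫ t in Icc a T, (ff t : ℂ) * (∏ j : Fin n, DN N (t + c j) -
      ∏ j : Fin n, ((Real.log T : ℂ) * P1 N (t + c j))) =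
      ∑ i, ∫ t in Icc a T, (ff t : ℂ) * ∏ j, w i j (t + c j) := by
    intro c
    rw [← integral_finset_sum _ fun i _ => hint c i]
    refine integral_congr_ae (Eventually.of_forall fun t => ?_)
    simp only
    rw [← Finset.mul_sum, tele]
  calc ∫ c, ‖∫ t in Icc a T, (ff t : ℂ) * (∏ j : Fin n, DN N (t + c j) -
        ∏ j : Fin n, ((Real.log T : ℂ) * P1 N (t + c j)))‖ ∂(mB n 0 U)
      ≤ ∫ c, ∑ i, ‖∫ t in Icc a T, (ff t : ℂ) * ∏ j, w i j (t + c j)‖ ∂(mB n 0 U) := by
        refine integral_mono ?_ ?_ fun c => ?_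
        · have : Continuous fun c : Fin n → ℝ => ∫ t in Icc a T, (ff t : ℂ) * (∏ j : Fin n, DN N (t + c j) -
              ∏ j : Fin n, ((Real.log T : ℂ) * P1 N (t + c j))) := by
            simp only [hdec]
            exact continuous_finsetSum _ fun i _ => hcont i
          exact mB_int this.norm 0 U
        · exact mB_int (continuous_finsetSum _ fun i _ => (hcont i).norm) 0 U
        · simp only
          rw [hdec c]
          exact norm_sum_le _ _
    _ = ∑ i, ∫ c, ‖∫ t in Icc a T, (ff t : ℂ) * ∏ j, w i j (t + c j)‖ ∂(mB n 0 U) :=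
        integral_finset_sum _ fun i _ => mB_int (hcont i).norm 0 U
    _ ≤ ∑ _i : Fin n, C1 * T * L * (B ^ n * (R * L ^ (n - 1))) := Finset.sum_le_sum fun i _ => key i
    _ = n * (C1 * T * L * (B ^ n * (R * L ^ (n - 1)))) := by
        rw [Finset.sum_const, Finset.card_univ, Fintype.card_fin, nsmul_eq_mul]
    _ ≤ _ := by
        rcases Nat.eq_zero_or_pos n with h0 | h0
        · subst h0
          simp only [Nat.cast_zero, zero_mul]
          positivity
        · have e5 : L ^ n = L * L ^ (n - 1) := by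
            rw [← pow_succ']
            congr 1
            omega
          have e6 : B ^ n = U ^ n * √C2 ^ n * M ^ (2 * n) := by
            rw [hB, mul_pow, mul_pow, ← pow_mul, mul_assoc]
          rw [e5, e6]
          have e7 : (n : ℝ) ≤ n + 1 := by linarith
          calc (n : ℝ) * (C1 * T * L * (U ^ n * √C2 ^ n * M ^ (2 * n) * (R * L ^ (n - 1))))
              ≤ (n + 1) * (C1 * T * L * (U ^ n * √C2 ^ n * M ^ (2 * n) * (R * L ^ (n - 1)))) := by gcongr
            _ = _ := by ring

end Pool.Agent.Helper25.ZM
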