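import Pool.Agent.Helper25.ZM.GSAll
import Pool.Agent.N879.PU.Asm3
import Pool.Agent.N879.PU.Em
import Pool.Agent.N879.PU.Mv
import Pool.Agent.N879.PU.Ku
import Pool.Agent.N879.PU.Sms
import Pool.Agent.N879.PU.Reg
import Pool.Agent.N879.PU.Winu
import Pool.Agent.N879.PU.Telu
import Pool.Agent.N879.PU.Iru

set_option autoImplicit false

/-! Project PU: all pieces. -/

namespace Pool.Agent.Helper25.ZM

open Pool.Agent.N879.PU

theorem pu_main : S_MAINU2 :=
  t_MAINU2 (t_KU t_EM t_MVS (t_MVT t_MVS)) (t_REG t_SMS) (t_WINU t_MVS) t_TELU t_IRU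
    Pool.Agent.TH509.GS.t_DIAG (Pool.Agent.TH367.GS.t_SS sFL2) sA4 sZM Pool.Agent.TH767.GS.t_NS

end Pool.Agent.Helper25.ZM
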