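import Pool.Agent.Helper25.ZM.SM
import Pool.Agent.Helper25.ZM.Led
import Pool.Agent.N879.PZ.Afx
import Pool.Agent.N879.PZ.Crd
import Pool.Agent.N879.PZ.Lc
import Pool.Agent.N879.PZ.Lt
import Pool.Agent.N879.PZ.Kh
import Pool.Agent.N879.PZ.Kl
import Pool.Agent.N879.PZ.Ker
import Pool.Agent.N879.PZ.Telc
import Pool.Agent.N879.PZ.Ctg
import Pool.Agent.N879.PZ.M4l
import Pool.Agent.N879.PZ.Win
import Pool.Agent.N879.PZ.Gcm
import Pool.Agent.N879.PZ.Sml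
import Pool.Agent.N879.PZ.Tw
import Pool.Agent.N879.PZ.Msq
import Pool.Agent.N879.PZ.Loc1
import Pool.Agent.N879.PZ.Eut1
import Pool.Agent.N879.PZ.Eul1
import Pool.Agent.N879.PZ.Lb1
import Pool.Agent.N879.PZ.Aa1
import Pool.Agent.N879.PZ.Ze1
import Pool.Agent.N879.PZ.Asm4
import Pool.Agent.N879.PZ.Asm3

set_option autoImplicit false

/-! Project PZ: all pieces. -/

namespace Pool.Agent.Helper25.ZM

open Pool.Agent.N879.PZ

theorem zM4L : S_M4L := t_M4L t_AFX t_CRD t_LT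
theorem zWIN : S_WIN := t_WIN t_LC
theorem zGCM : S_GCM := t_GCM zM4L
theorem zMEAN : S_MEAN2 := t_MEAN2 (t_KER t_AFX (t_KH t_CRD t_LC t_LT) t_KL) t_TELC t_CTG zM4L zWIN zGCM
  (t_SML t_FUB zM4L) (t_GCD t_FUB zM4L zWIN zGCM) (t_LED sm_gp t_FUB zWIN) (t_MSQ (t_TW t_AFX t_CRD))

/-- the theorem of project PZ -/
theorem pz_main : S_MAIN2 :=
  t_MAIN2 t_CTG zMEAN (t_EUL1 t_LOC1 (t_EUT1 t_LSM1)) (t_LB1 t_LOC1) (t_ZE1 (t_AA1 t_LOC1))

end Pool.Agent.Helper25.ZM
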