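import Pool.Agent.Helper25.ZM.Base
import Pool.Agent.Y969.GP.Def
import Pool.Agent.TH612.GS.Stm2

set_option autoImplicit false

/-! The second moment of zeta in the forms needed by the projects GP, GS, SX. -/

namespace Pool.Agent.Helper25.ZM

open Complex Filter Topology MeasureTheory Set

noncomputable section

lemma half_cont : Continuous fun u : ℝ => ‖riemannZeta (1 / 2 + I * u)‖ ^ 2 := by
  refine Continuous.pow (Continuous.norm ?_) 2
  rw [continuous_iff_continuousAt]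
  intro v
  have h1 : ((1 / 2 : ℂ) + I * v) ≠ 1 := by
    intro h
    have := congrArg Complex.re h
    simp at this
  exact ContinuousAt.comp (f := fun v : ℝ => (1 / 2 : ℂ) + I * v) (g := riemannZeta)
    (differentiableAt_riemannZeta h1).continuousAt (by fun_prop)

theorem sm : ∃ C : ℝ, 0 < C ∧ ∀ T : ℝ, 2 ≤ T →
    ∫ u in (0 : ℝ)..(2 * T), ‖riemannZeta (1 / 2 + I * u)‖ ^ 2 ≤ C * T * Real.log T := by
  obtain ⟨C, hC, h⟩ := zms
  set C0 : ℝ := ∫ u in (0 : ℝ)..1, ‖riemannZeta (1 / 2 + I * u)‖ ^ 2 with hC0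
  have hC00 : 0 ≤ C0 := intervalIntegral.integral_nonneg (by norm_num) fun u _ => by positivity
  refine ⟨C0 * 2 + 8 * C, by positivity, fun T hT => ?_⟩
  have hT0 : 0 < T := by linarith
  have hl2 : 1 / 2 < Real.log 2 := by linarith [Real.log_two_gt_d9]
  have hl : Real.log 2 ≤ Real.log T := Real.log_le_log (by norm_num) hT
  have hsplit : ∫ u in (0 : ℝ)..(2 * T), ‖riemannZeta (1 / 2 + I * u)‖ ^ 2 =
      C0 + ∫ u in (1 : ℝ)..(2 * T), ‖riemannZeta (1 / 2 + I * u)‖ ^ 2 := by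
    rw [hC0]
    exact (intervalIntegral.integral_add_adjacent_intervals (half_cont.intervalIntegrable _ _)
      (half_cont.intervalIntegrable _ _)).symm
  rw [hsplit]
  have h1 := h (1 / 2) (2 * T) le_rfl (by norm_num) (by linarith)
  have e : ((1 / 2 : ℝ) : ℂ) = 1 / 2 := by push_cast; ring
  rw [e] at h1
  have h2 : 1 + Real.log (2 * T) ≤ 4 * Real.log T := by
    rw [Real.log_mul (by norm_num) hT0.ne']
    linarith
  have h3 : C * (2 * T) * (1 + Real.log (2 * T)) ≤ C * (2 * T) * (4 * Real.log T) := by gcongr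
  have h4 : C0 ≤ C0 * 2 * T * Real.log T := by
    have h5 : 1 ≤ 2 * T * Real.log T := by nlinarith
    nlinarith
  nlinarith

theorem sm_gp : Pool.Agent.Y969.GP.S_SM := sm

theorem sm_gs : Pool.Agent.TH612.GS.S_SM := by
  obtain ⟨C, hC, h⟩ := sm
  exact ⟨C, 2, hC, le_rfl, fun T hT => h T hT⟩

theorem zl : Pool.Agent.Y969.GP.S_ZL := by
  obtain ⟨C, hC, h⟩ := zms
  intro κ hκ
  refine ⟨C * (1 + 1 / κ), by positivity, fun x T h1 h2 hT => ?_⟩
  have hT0 : 0 < T := by linarith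
  refine (h x T h1 h2 hT).trans ?_
  have h3 := Real.log_le_rpow_div hT0.le hκ
  have h4 : 1 ≤ T ^ κ := Real.one_le_rpow hT hκ.le
  rw [Real.rpow_add hT0, Real.rpow_one]
  have h5 : 1 + Real.log T ≤ (1 + 1 / κ) * T ^ κ := by
    have : T ^ κ / κ = 1 / κ * T ^ κ := by ring
    linarith
  calc C * T * (1 + Real.log T) ≤ C * T * ((1 + 1 / κ) * T ^ κ) := by gcongr
    _ = _ := by ring

end

end Pool.Agent.Helper25.ZM
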