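import Pool.Agent.Helper25.ZM.SM
import Pool.Agent.Y739.SX.FA
import Pool.Agent.Y360.SX.F8
import Pool.Agent.Y429.SX.FB
import Pool.Agent.Y780.SX.Blk
import Pool.Agent.Y547.SX.Min
import Pool.Agent.Y246.SX.W1
import Pool.Agent.Y448.SX.W2
import Pool.Agent.Y620.SX.CRA
import Pool.Agent.Y812.SX.OMX
import Pool.Agent.Y953.SX.Ort
import Pool.Agent.Y76.SX.ARI
import Pool.Agent.Y369.SX.Ars
import Pool.Agent.Y809.SX.UB0
import Pool.Agent.Y4.SX.UB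
import Pool.Agent.Y604.SX.AS
import Pool.Agent.Y670.SX.TAY
import Pool.Agent.Y293.SX.TL2
import Pool.Agent.Y81.SX.T0
import Pool.Agent.Y978.SX.EUL
import Pool.Agent.Y475.SX.SHP
import Pool.Agent.Y77.SX.CTW
import Pool.Agent.Y901.SX.A1
import Pool.Agent.Y54.SX.A2
import Pool.Agent.Y726.SX.TWC
import Pool.Agent.Y852.SX.Loc
import Pool.Agent.Y686.SX.Lsm
import Pool.Agent.Y983.SX.EUT
import Pool.Agent.Y781.SX.LB
import Pool.Agent.Y81.SX.AAP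
import Pool.Agent.Y96.SX.ZM
import Pool.Agent.Y514.SX.ZE
import Pool.Agent.Y969.SM.Fin
import Pool.Agent.Y969.SM.Win
import Pool.Agent.Y969.SM.Res
import Pool.Agent.Y969.SM.Rel
import Pool.Agent.TH384.N4_FM
import Pool.Agent.TH806.N4.Abs
import Pool.Agent.Y587.GP.V
import Pool.Agent.Y587.GP.Chi
import Pool.Agent.Y379.GP.Sp
import Pool.Agent.Y545.GP.CR
import Pool.Agent.Y125.GP.LSW
import Pool.Agent.Y891.GP.AFE

set_option autoImplicit false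

/-! Project SX: all pieces. -/

namespace Pool.Agent.Helper25.ZM

open Filter Topology MeasureTheory
open Pool.Agent.Y969.SM
open Pool.Agent.H262R4.TM (Rng)
open Pool.Agent.H306R2.SM (om)

theorem xV : Pool.Agent.Y969.GP.S_V := Pool.Agent.Y587.GP.t_V
theorem xSP : Pool.Agent.Y969.GP.S_SP := Pool.Agent.Y379.GP.t_SP
theorem xCR : Pool.Agent.Y969.GP.S_CR := Pool.Agent.Y545.GP.t_CR xV
theorem xLSW : Pool.Agent.Y969.GP.S_LSW := Pool.Agent.Y125.GP.t_LSW xSP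
theorem xAFE : Pool.Agent.Y969.GP.S_AFE := Pool.Agent.Y891.GP.t_AFE xV Pool.Agent.Y587.GP.Chi.t_CHI
theorem xORT : S_ORT := Pool.Agent.Y953.SX.t_ORT xSP
theorem xUB {k : ℕ} (hk : 2 ≤ k) (hFB : S_FB k) : S_UB k :=
  Pool.Agent.Y4.SX.t_UB k (Pool.Agent.Y809.SX.t_UB0 Pool.Agent.Y726.SX.t_TWC Pool.Agent.TH384.N4_FM.t_FM
    Pool.Agent.Y369.SX.t_ARS k hk) hFB
theorem xFA : ∃ k : ℕ, 2 ≤ k ∧ S_FA k := by
  obtain ⟨k₀, hFA⟩ := Pool.Agent.Y739.SX.t_FA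
  exact ⟨max k₀ 2, le_max_right _ _, hFA _ (le_max_left _ _)⟩
theorem xAS : S_AS := Pool.Agent.Y604.SX.t_AS Pool.Agent.Y726.SX.t_TWC Pool.Agent.TH384.N4_FM.t_FM
  Pool.Agent.TH806.N4.a_ING Pool.Agent.Y901.SX.t_A1 Pool.Agent.Y54.SX.t_A2 xFA
theorem xSHP : S_SHP := by
  obtain ⟨k, -, C, hC, h⟩ := xFA
  refine Pool.Agent.Y475.SX.t_SHP sm_gp Pool.Agent.Y77.SX.t_CTW ⟨C, hC, ?_⟩
  filter_upwards [h] with T h κ hκ
  exact (h κ hκ).2.2.2.2.2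

/-- the bound of the model of the fourth power -/
theorem xF0 {k : ℕ} (h : S_FA k) : ∀ᶠ T : ℝ in atTop, ∀ κ : ℕ, Rng T κ →
    ∫ t in Set.Ioi (0:ℝ), om κ (κ / T) t * |F0 k T t| ≤ Real.log T ^ 5 ∧
    IntegrableOn (fun t => om κ (κ / T) t * |F0 k T t|) (Set.Ioi 0) := by
  obtain ⟨C, hC, h⟩ := h
  filter_upwards [h, Real.tendsto_log_atTop.eventually_ge_atTop (max C 1)] with T h1 h2 κ hκ
  obtain ⟨-, q1, -, -, q2, -⟩ := h1 κ hκ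
  refine ⟨q2.trans ?_, q1⟩
  have h3 : C ≤ Real.log T := (le_max_left _ _).trans h2
  have h4 : 1 ≤ Real.log T := (le_max_right _ _).trans h2
  calc C * Real.log T ^ 4 ≤ Real.log T * Real.log T ^ 4 := by gcongr
    _ = Real.log T ^ 5 := by ring

theorem xWIN : S_WIN := by
  obtain ⟨k₀, hFA⟩ := Pool.Agent.Y739.SX.t_FA
  have hk : 2 ≤ max k₀ 2 := le_max_right _ _
  have fa : S_FA (max k₀ 2) := hFA _ (le_max_left _ _)
  have fb : S_FB (max k₀ 2) := Pool.Agent.Y429.SX.t_FB Pool.Agent.Y360.SX.t_F8 _ hk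
  have hx := xF0 fa
  have hub := xUB hk fb
  exact t_WIN (max k₀ 2) fb (Pool.Agent.Y246.SX.t_W1 _ fa fb sm_gp)
    (Pool.Agent.Y448.SX.t_W2 _ fb hx xAFE sm_gp)
    (Pool.Agent.Y547.SX.t_MIN _ Pool.Agent.Y780.SX.t_BLK fb hx xLSW xCR)
    (Pool.Agent.Y670.SX.t_TAY _ (Pool.Agent.Y620.SX.t_CRA xV) Pool.Agent.Y812.SX.t_OMX xORT fa fb)
    (Pool.Agent.Y293.SX.t_TL2 _ hub xORT Pool.Agent.Y76.SX.t_ARI fb)
    (Pool.Agent.Y81.SX.T0.t_T0 _ hub xAS fa xORT Pool.Agent.Y76.SX.t_ARI Pool.Agent.Y76.SX.t_W2B fb)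
    Pool.Agent.Y77.SX.t_CTW xV

theorem xMAIN : S_MAIN := t_MAIN xWIN xSHP
  (Pool.Agent.Y978.SX.t_EUL Pool.Agent.Y852.SX.t_LOC (Pool.Agent.Y983.SX.EUT.t_EUT Pool.Agent.Y686.SX.t_LSM) xORT
    Pool.Agent.Y76.SX.t_ARI Pool.Agent.Y76.SX.t_W2B) Pool.Agent.Y77.SX.t_CTW

theorem xAA : S_AA := Pool.Agent.Y81.SX.AAP.t_AA Pool.Agent.Y852.SX.t_LOC

theorem xREL : S_REL := t_REL xMAIN (Pool.Agent.Y781.SX.t_LB Pool.Agent.Y852.SX.t_LOC)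
  (Pool.Agent.Y514.SX.t_ZE xAA Pool.Agent.Y96.SX.t_ZM)

end Pool.Agent.Helper25.ZM
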